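import Mathlib

/-!
# Unions of rotated triangular lattices which are dense forests

The plane is the complex plane, the rotation by `θ` is the multiplication by `exp (θ i)`.

We show that the union of `k` rotated and translated copies of the triangular lattice is a dense
forest if and only if there is no direction which is rational for all the `k` lattices (whatever the
translations are). Hence two copies are enough (and necessary), for example with the angles
`0` and `π / 4`.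
-/

set_option autoImplicit false

open Complex

namespace Pool.Agent.Results.MP_b83ca4_nt.SmallestK

/-- `ζ = (1/2, √3/2)` -/
noncomputable def zeta : ℂ := ⟨1 / 2, √3 / 2⟩

/-- The triangular lattice `Λ = ℤ (1, 0) + ℤ (1/2, √3/2)` in the plane `ℝ² = ℂ`. -/
def lat : Set ℂ := {z | ∃ a b : ℤ, z = a + b * zeta}

/-- The union of the sets `r_{θ i} (Λ) + x i`, `i = 1, …, k`. -/
def TBG (k : ℕ) (x : Fin k → ℂ) (θ : Fin k → ℝ) : Set ℂ :=
  ⋃ i, (fun z => exp (θ i * I) * z + x i) '' lat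

/-- `D` is a dense forest: for every `ε > 0` there is `V > 0` such that every segment of length `V`
has some point of `D` at distance less than `ε` from it. -/
def IsDenseForest (D : Set ℂ) : Prop :=
  ∀ ε > (0 : ℝ), ∃ V > (0 : ℝ), ∀ p q : ℂ, dist p q = V →
    ∃ d ∈ D, ∃ s ∈ segment ℝ p q, dist s d < ε

/-! ### the lattice -/

lemma zeta_sq : zeta * zeta = zeta - 1 := by
  have h : √3 * √3 = 3 := Real.mul_self_sqrt (by norm_num)
  apply Complex.ext
  · simp [zeta]
    nlinarith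
  · simp [zeta]
    ring

lemma conj_zeta : (starRingEnd ℂ) zeta = 1 - zeta := by
  apply Complex.ext
  · simp [zeta]; norm_num
  · simp [zeta]

lemma lat_zero : (0 : ℂ) ∈ lat := ⟨0, 0, by simp⟩

lemma lat_one : (1 : ℂ) ∈ lat := ⟨1, 0, by simp⟩

lemma lat_add {z w : ℂ} (hz : z ∈ lat) (hw : w ∈ lat) : z + w ∈ lat := by
  obtain ⟨a, b, rfl⟩ := hz
  obtain ⟨c, d, rfl⟩ := hw
  exact ⟨a + c, b + d, by push_cast; ring⟩

lemma lat_neg {z : ℂ} (hz : z ∈ lat) : -z ∈ lat := by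
  obtain ⟨a, b, rfl⟩ := hz
  exact ⟨-a, -b, by push_cast; ring⟩

lemma lat_sub {z w : ℂ} (hz : z ∈ lat) (hw : w ∈ lat) : z - w ∈ lat := by
  rw [sub_eq_add_neg]; exact lat_add hz (lat_neg hw)

lemma lat_mul {z w : ℂ} (hz : z ∈ lat) (hw : w ∈ lat) : z * w ∈ lat := by
  obtain ⟨a, b, rfl⟩ := hz
  obtain ⟨c, d, rfl⟩ := hw
  refine ⟨a * c - b * d, a * d + b * c + b * d, ?_⟩
  have := zeta_sq
  push_cast
  linear_combination (b : ℂ) * d * this

lemma lat_conj {z : ℂ} (hz : z ∈ lat) : (starRingEnd ℂ) z ∈ lat := by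
  obtain ⟨a, b, rfl⟩ := hz
  refine ⟨a + b, -b, ?_⟩
  simp only [map_add, map_mul, conj_zeta]
  have h1 : (starRingEnd ℂ) (a : ℂ) = a := map_intCast _ a
  have h2 : (starRingEnd ℂ) (b : ℂ) = b := map_intCast _ b
  rw [h1, h2]
  push_cast
  ring

lemma lat_int (n : ℤ) : (n : ℂ) ∈ lat := ⟨n, 0, by simp⟩

lemma lat_im {z : ℂ} (hz : z ∈ lat) : ∃ n : ℤ, z.im = n * (√3 / 2) := by
  obtain ⟨a, b, rfl⟩ := hz
  exact ⟨b, by simp [zeta]⟩

/-- every point of the plane is at distance at most `1` (in fact less) of the lattice -/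
lemma lat_round (z : ℂ) : ∃ l ∈ lat, normSq (z - l) ≤ 3 / 4 := by
  have h3 : √3 * √3 = 3 := Real.mul_self_sqrt (by norm_num)
  have h3' : (0 : ℝ) < √3 := Real.sqrt_pos.2 (by norm_num)
  set b : ℤ := round (z.im / (√3 / 2)) with hb
  set a : ℤ := round (z.re - z.im / (√3 / 2) / 2) with ha
  refine ⟨a + b * zeta, ⟨a, b, rfl⟩, ?_⟩
  have h1 := abs_sub_round (z.im / (√3 / 2))
  have h2 := abs_sub_round (z.re - z.im / (√3 / 2) / 2)
  rw [← hb] at h1
  rw [← ha] at h2
  set t : ℝ := z.im / (√3 / 2) - b with ht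
  set s : ℝ := z.re - z.im / (√3 / 2) / 2 - a with hs
  have hre : (z - (a + b * zeta)).re = s + t / 2 := by
    simp [zeta, hs, ht]; ring
  have him : (z - (a + b * zeta)).im = t * (√3 / 2) := by
    have : z.im = z.im / (√3 / 2) * (√3 / 2) := by field_simp
    simp only [sub_im, add_im, intCast_im, mul_im, intCast_re, zeta, zero_mul, add_zero, zero_add, ht]
    rw [sub_mul, ← this]
  rw [normSq_apply, hre, him]
  have h1' := abs_le.1 h1
  have h2' := abs_le.1 h2
  have e : (s + t / 2) * (s + t / 2) + t * (√3 / 2) * (t * (√3 / 2)) = s ^ 2 + s * t + t ^ 2 := by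
    have : t * (√3 / 2) * (t * (√3 / 2)) = t ^ 2 * (√3 * √3) / 4 := by ring
    rw [this, h3]; ring
  rw [e]
  nlinarith [mul_nonneg (sub_nonneg.2 h1'.2) (sub_nonneg.2 h2'.2),
    mul_nonneg (sub_nonneg.2 h1'.2) (sub_nonneg.2 h2'.1),
    mul_nonneg (sub_nonneg.2 h1'.1) (sub_nonneg.2 h2'.2),
    mul_nonneg (sub_nonneg.2 h1'.1) (sub_nonneg.2 h2'.1),
    mul_nonneg (sub_nonneg.2 h1'.1) (sub_nonneg.2 h1'.2),
    mul_nonneg (sub_nonneg.2 h2'.1) (sub_nonneg.2 h2'.2)]

lemma lat_round' (z : ℂ) : ∃ l ∈ lat, ‖z - l‖ ≤ 1 := by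
  obtain ⟨l, hl, h⟩ := lat_round z
  refine ⟨l, hl, ?_⟩
  have h1 : ‖z - l‖ ^ 2 ≤ 1 := by rw [← normSq_eq_norm_sq]; linarith
  nlinarith [norm_nonneg (z - l)]

/-- the lattice has finitely many points in every disc -/
lemma lat_finite (B : ℝ) : {z : ℂ | z ∈ lat ∧ ‖z‖ ≤ B}.Finite := by
  have h3 : √3 * √3 = 3 := Real.mul_self_sqrt (by norm_num)
  have h3' : (1 : ℝ) < √3 := by
    rw [Real.lt_sqrt (by norm_num)]; norm_num
  obtain ⟨N, hN⟩ := exists_nat_ge (4 * |B| + 4)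
  refine ((Finset.Icc (-(N : ℤ)) N ×ˢ Finset.Icc (-(N : ℤ)) N).finite_toSet.image
    fun p : ℤ × ℤ => (p.1 : ℂ) + p.2 * zeta).subset ?_
  rintro z ⟨⟨a, b, rfl⟩, hz⟩
  refine ⟨(a, b), ?_, rfl⟩
  have h1 := (abs_im_le_norm _).trans hz
  have h2 := (abs_re_le_norm _).trans hz
  have h1' : ((a : ℂ) + b * zeta).im = b * (√3 / 2) := by simp [zeta]
  have h2' : ((a : ℂ) + b * zeta).re = a + b * (1 / 2) := by simp [zeta]
  rw [h1'] at h1
  rw [h2'] at h2
  have hB := le_abs_self B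
  rw [abs_le] at h1 h2
  have hb : |(b : ℝ)| ≤ 2 * |B| := by
    rw [abs_le]
    constructor <;> by_contra hcon <;> push Not at hcon <;> nlinarith [abs_nonneg B]
  have hb' := abs_le.1 hb
  simp only [Finset.coe_product, Finset.coe_Icc, Set.mem_prod, Set.mem_Icc]
  refine ⟨⟨?_, ?_⟩, ⟨?_, ?_⟩⟩
  · have : (-(N : ℝ)) ≤ a := by linarith
    exact_mod_cast this
  · have : (a : ℝ) ≤ N := by linarith
    exact_mod_cast this
  · have : (-(N : ℝ)) ≤ b := by linarith
    exact_mod_cast this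
  · have : (b : ℝ) ≤ N := by linarith
    exact_mod_cast this

/-! ### Dirichlet -/

/-- the signed distance of `z` from the line through `0` in the direction `u` (`u` a unit vector) -/
noncomputable def ht (u z : ℂ) : ℝ := (z * (starRingEnd ℂ) u).im

/-- the coordinate of `z` in the direction of the unit vector `u` -/
noncomputable def lg (u z : ℂ) : ℝ := (z * (starRingEnd ℂ) u).re

lemma ht_add (u z w : ℂ) : ht u (z + w) = ht u z + ht u w := by simp [ht, add_mul]

lemma ht_neg (u z : ℂ) : ht u (-z) = - ht u z := by simp [ht]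

lemma lg_add (u z w : ℂ) : lg u (z + w) = lg u z + lg u w := by simp [lg, add_mul]

lemma lg_neg (u z : ℂ) : lg u (-z) = - lg u z := by simp [lg]

lemma ht_sub (u z w : ℂ) : ht u (z - w) = ht u z - ht u w := by simp [ht, sub_mul]

lemma lg_sub (u z w : ℂ) : lg u (z - w) = lg u z - lg u w := by simp [lg, sub_mul]

lemma ht_le {u : ℂ} (hu : ‖u‖ = 1) (z : ℂ) : |ht u z| ≤ ‖z‖ := by
  unfold ht
  refine (abs_im_le_norm _).trans ?_
  rw [norm_mul, RCLike.norm_conj, hu, mul_one]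

lemma lg_le {u : ℂ} (hu : ‖u‖ = 1) (z : ℂ) : |lg u z| ≤ ‖z‖ := by
  unfold lg
  refine (abs_re_le_norm _).trans ?_
  rw [norm_mul, RCLike.norm_conj, hu, mul_one]

lemma decomp {u : ℂ} (hu : ‖u‖ = 1) (z : ℂ) : z - (lg u z : ℂ) * u = ht u z * (I * u) := by
  have h1 : (starRingEnd ℂ) u * u = 1 := by
    rw [mul_comm, mul_conj, normSq_eq_norm_sq, hu]; simp
  have h2 : z = (z * (starRingEnd ℂ) u) * u := by rw [mul_assoc, h1, mul_one]
  have h3 : z * (starRingEnd ℂ) u = (lg u z : ℂ) + (ht u z : ℂ) * I := by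
    unfold lg ht; exact (re_add_im _).symm
  have h4 : z = ((lg u z : ℂ) + (ht u z : ℂ) * I) * u := by rw [← h3]; exact h2
  linear_combination h4

lemma dirichlet_aux (α β : ℝ) (hα : |α| ≤ 1) (hβ : |β| ≤ |α|) {n : ℕ} (hn : 0 < n) :
    ∃ j k : ℤ, 0 < k ∧ k ≤ n ∧ |j| ≤ n + 1 ∧ |(k : ℝ) * β - j * α| ≤ 1 / (n + 1) := by
  obtain ⟨j, k, hk, hkn, h⟩ := Real.exists_int_int_abs_mul_sub_le (β / α) hn
  refine ⟨j, k, hk, hkn, ?_, ?_⟩
  · have hξ : |β / α| ≤ 1 := by
      rw [abs_div]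
      exact div_le_one_of_le₀ hβ (abs_nonneg _)
    have h1 : |(j : ℝ)| ≤ n + 1 := by
      have h2 : |(j : ℝ)| ≤ |(k : ℝ) * (β / α)| + |(k : ℝ) * (β / α) - j| := by
        have := abs_sub_abs_le_abs_sub (j : ℝ) ((k : ℝ) * (β / α))
        rw [abs_sub_comm] at this
        linarith
      have h3 : |(k : ℝ) * (β / α)| ≤ n := by
        rw [abs_mul]
        have hk1 : |(k : ℝ)| ≤ n := by
          rw [abs_of_pos (by exact_mod_cast hk)]
          exact_mod_cast hkn
        calc |(k : ℝ)| * |β / α| ≤ n * 1 := by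
              apply mul_le_mul hk1 hξ (abs_nonneg _) (by positivity)
          _ = n := mul_one _
      have h4 : (1 : ℝ) / (n + 1) ≤ 1 := by
        rw [div_le_one (by positivity)]
        have : (0 : ℝ) ≤ n := by positivity
        linarith
      linarith
    exact_mod_cast h1
  · have h0 : β = α * (β / α) := by
      by_cases h : α = 0
      · have : β = 0 := by
          rw [h, abs_zero] at hβ
          exact abs_eq_zero.1 (le_antisymm hβ (abs_nonneg _))
        rw [h, this]; simp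
      · field_simp
    have h1 : (k : ℝ) * β - j * α = α * (k * (β / α) - j) := by
      conv_lhs => rw [h0]
      ring
    rw [h1, abs_mul]
    calc |α| * |(k : ℝ) * (β / α) - j| ≤ 1 * (1 / (n + 1)) :=
          mul_le_mul hα h (abs_nonneg _) (by norm_num)
      _ = _ := one_mul _

lemma norm_zeta : ‖zeta‖ = 1 := by
  have h3 : √3 * √3 = 3 := Real.mul_self_sqrt (by norm_num)
  have h : ‖zeta‖ ^ 2 = 1 := by
    rw [← normSq_eq_norm_sq, normSq_apply]
    simp only [zeta]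
    nlinarith
  nlinarith [norm_nonneg zeta]

lemma comb_ne {a b : ℤ} (h : b ≠ 0 ∨ a ≠ 0) : (a : ℂ) + b * zeta ≠ 0 := by
  intro h0
  have h3 : √3 / 2 ≠ 0 := by positivity
  have him : ((a : ℂ) + b * zeta).im = b * (√3 / 2) := by simp [zeta]
  have hre : ((a : ℂ) + b * zeta).re = a + b * (1 / 2) := by simp [zeta]
  rw [h0] at him hre
  simp only [zero_im, zero_re] at him hre
  have hb : (b : ℝ) = 0 := by
    rcases mul_eq_zero.1 him.symm with h | h
    · exact h
    · exact absurd h h3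
  rw [hb] at hre
  have hb' : b = 0 := by exact_mod_cast hb
  have ha' : a = 0 := by
    have : (a : ℝ) = 0 := by linarith
    exact_mod_cast this
  rcases h with h | h
  · exact h hb'
  · exact h ha'

/-- Dirichlet's theorem for the triangular lattice -/
lemma dirichlet {ε : ℝ} (hε : 0 < ε) : ∃ B : ℝ, 0 < B ∧ ∀ u : ℂ, ‖u‖ = 1 →
    ∃ l ∈ lat, l ≠ 0 ∧ ‖l‖ ≤ B ∧ |ht u l| < ε := by
  obtain ⟨n, hn⟩ := exists_nat_gt (1 / ε)
  have hn0 : 0 < n := by
    have : (0 : ℝ) < n := lt_trans (by positivity) hn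
    exact_mod_cast this
  have hsmall : (1 : ℝ) / (n + 1) < ε := by
    rw [div_lt_iff₀ (by positivity)]
    rw [div_lt_iff₀ hε] at hn
    nlinarith
  refine ⟨2 * n + 1, by positivity, fun u hu => ?_⟩
  have key : ∀ a b : ℤ, (b ≠ 0 ∨ a ≠ 0) → |a| + |b| ≤ 2 * n + 1 →
      |(a : ℝ) * ht u 1 + b * ht u zeta| ≤ 1 / (n + 1) →
      ∃ l ∈ lat, l ≠ 0 ∧ ‖l‖ ≤ 2 * n + 1 ∧ |ht u l| < ε := by
    intro a b hab hle hform
    refine ⟨a + b * zeta, ⟨a, b, rfl⟩, comb_ne hab, ?_, ?_⟩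
    · calc ‖(a : ℂ) + b * zeta‖ ≤ ‖(a : ℂ)‖ + ‖(b : ℂ) * zeta‖ := norm_add_le _ _
        _ = |(a : ℝ)| + |(b : ℝ)| := by
          rw [norm_mul, norm_zeta, mul_one, norm_intCast, norm_intCast]
        _ ≤ 2 * n + 1 := by exact_mod_cast hle
    · have : ht u (a + b * zeta) = a * ht u 1 + b * ht u zeta := by
        rw [ht_add]
        simp only [ht, mul_assoc]
        simp
      rw [this]
      exact lt_of_le_of_lt hform hsmall
  have hα : |ht u 1| ≤ 1 := by simpa using ht_le hu 1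
  have hβ : |ht u zeta| ≤ 1 := by have := ht_le hu zeta; rwa [norm_zeta] at this
  rcases le_total |ht u zeta| |ht u 1| with h | h
  · obtain ⟨j, k, h1, h2, h3, h4⟩ := dirichlet_aux _ _ hα h hn0
    refine key (-j) k (Or.inl h1.ne') ?_ ?_
    · rw [abs_neg, abs_of_pos h1]; omega
    · have : ((-j : ℤ) : ℝ) * ht u 1 + k * ht u zeta = k * ht u zeta - j * ht u 1 := by
        push_cast; ring
      rw [this]; exact h4
  · obtain ⟨j, k, h1, h2, h3, h4⟩ := dirichlet_aux _ _ hβ h hn0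
    refine key k (-j) (Or.inr h1.ne') ?_ ?_
    · rw [abs_neg, abs_of_pos h1]; omega
    · have : (k : ℝ) * ht u 1 + ((-j : ℤ) : ℝ) * ht u zeta = k * ht u 1 - j * ht u zeta := by
        push_cast; ring
      rw [this]; exact h4

/-! ### one lattice -/

lemma ht_nsmul (u z : ℂ) (n : ℕ) : ht u (n * z) = n * ht u z := by
  simp [ht, mul_assoc]

lemma lg_nsmul (u z : ℂ) (n : ℕ) : lg u (n * z) = n * lg u z := by
  simp [lg, mul_assoc]

/-- If a lattice vector of length at most `B` has distance between `δ` and `ε` from the line in the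
direction `u`, then all segments in the direction `u` of length at least `2 + 2 B / δ` come
`ε`-close to every translate of the lattice. -/
lemma forest_one {u ρ l : ℂ} {ε δ B V : ℝ} (hu : ‖u‖ = 1) (hρ : ‖ρ‖ = 1) (hl : l ∈ lat)
    (hδ : 0 < δ) (hlB : ‖l‖ ≤ B) (h1 : δ ≤ |ht u (ρ * l)|) (h2 : |ht u (ρ * l)| < ε)
    (hV : 2 + 2 * B / δ ≤ V) (p x : ℂ) :
    ∃ m ∈ lat, ∃ τ : ℝ, 0 ≤ τ ∧ τ ≤ V ∧ ‖p + τ * u - (ρ * m + x)‖ < ε := by
  wlog hlg : 0 ≤ lg u (ρ * l) generalizing l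
  · refine this (l := -l) (lat_neg hl) (by rwa [norm_neg]) ?_ ?_ ?_
    · rwa [mul_neg, ht_neg, abs_neg]
    · rwa [mul_neg, ht_neg, abs_neg]
    · rw [mul_neg, lg_neg]; push Not at hlg; linarith
  have hB : 0 ≤ B := (norm_nonneg _).trans hlB
  have hρ0 : ρ ≠ 0 := by rw [← norm_ne_zero_iff, hρ]; norm_num
  have huu : u * (starRingEnd ℂ) u = 1 := by
    rw [mul_conj, normSq_eq_norm_sq, hu]; simp
  -- the sign of the height
  obtain ⟨σ, hσ, hσ1⟩ : ∃ σ : ℝ, (σ = 1 ∨ σ = -1) ∧ |ht u (ρ * l)| = σ * ht u (ρ * l) := by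
    rcases abs_cases (ht u (ρ * l)) with h | h
    · exact ⟨1, Or.inl rfl, by rw [h.1]; ring⟩
    · exact ⟨-1, Or.inr rfl, by rw [h.1]; ring⟩
  have hσσ : σ * σ = 1 := by rcases hσ with h | h <;> rw [h] <;> norm_num
  set g : ℝ := |ht u (ρ * l)| with hg
  have hg0 : 0 < g := lt_of_lt_of_le hδ h1
  set c0 : ℂ := u * (1 - σ * I) with hc0
  have hc1 : lg u c0 = 1 := by
    have : c0 * (starRingEnd ℂ) u = 1 - σ * I := by
      rw [hc0]; linear_combination (1 - σ * I) * huu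
    unfold lg; rw [this]; simp
  have hc2 : ht u c0 = -σ := by
    have : c0 * (starRingEnd ℂ) u = 1 - σ * I := by
      rw [hc0]; linear_combination (1 - σ * I) * huu
    unfold ht; rw [this]; simp
  obtain ⟨m0, hm0, hm0'⟩ := lat_round' ((c0 - (x - p)) / ρ)
  have hdist : ‖(x - p) + ρ * m0 - c0‖ ≤ 1 := by
    have : (x - p) + ρ * m0 - c0 = - (ρ * ((c0 - (x - p)) / ρ - m0)) := by
      field_simp
      ring
    rw [this, norm_neg, norm_mul, hρ, one_mul]
    exact hm0'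
  set y0 : ℂ := (x - p) + ρ * m0 with hy0
  have hy1 : |lg u y0 - 1| ≤ 1 := by
    have : lg u y0 - 1 = lg u (y0 - c0) := by rw [lg_sub u y0 c0, hc1]
    rw [this]; exact (lg_le hu _).trans hdist
  have hy2 : |ht u y0 + σ| ≤ 1 := by
    have : ht u y0 + σ = ht u (y0 - c0) := by rw [ht_sub u y0 c0, hc2]; ring
    rw [this]; exact (ht_le hu _).trans hdist
  rw [abs_le] at hy1
  have hy3 : -2 ≤ σ * ht u y0 ∧ σ * ht u y0 ≤ 0 := by
    have h3 : |σ * (ht u y0 + σ)| ≤ 1 := by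
      rw [abs_mul]
      have : |σ| = 1 := by rcases hσ with h | h <;> rw [h] <;> simp
      rw [this, one_mul]; exact hy2
    rw [mul_add, hσσ, abs_le] at h3
    constructor <;> linarith [h3.1, h3.2]
  set a : ℕ := ⌊(-(σ * ht u y0)) / g⌋₊ with ha
  have hq0 : 0 ≤ (-(σ * ht u y0)) / g := div_nonneg (by linarith [hy3.2]) hg0.le
  have ha1 : (a : ℝ) ≤ (-(σ * ht u y0)) / g := Nat.floor_le hq0
  have ha2 : (-(σ * ht u y0)) / g < a + 1 := Nat.lt_floor_add_one _
  rw [le_div_iff₀ hg0] at ha1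
  rw [div_lt_iff₀ hg0] at ha2
  set y : ℂ := y0 + a * (ρ * l) with hy
  have hyh : ht u y = ht u y0 + a * ht u (ρ * l) := by rw [hy, ht_add, ht_nsmul]
  have hyl : lg u y = lg u y0 + a * lg u (ρ * l) := by rw [hy, lg_add, lg_nsmul]
  have hyh' : σ * ht u y = σ * ht u y0 + a * g := by rw [hyh, hσ1]; ring
  have habs : |ht u y| < ε := by
    have h3 : |ht u y| = |σ * ht u y| := by
      rw [abs_mul]
      have : |σ| = 1 := by rcases hσ with h | h <;> rw [h] <;> simp
      rw [this, one_mul]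
    rw [h3, hyh']
    refine lt_of_le_of_lt ?_ h2
    rw [abs_le]
    constructor <;> nlinarith
  have hlgl : lg u (ρ * l) ≤ B := by
    refine (le_abs_self _).trans ((lg_le hu _).trans ?_)
    rw [norm_mul, hρ, one_mul]; exact hlB
  have haδ : (a : ℝ) * δ ≤ 2 := by
    have : (a : ℝ) * δ ≤ a * g := mul_le_mul_of_nonneg_left h1 (by positivity)
    linarith [hy3.1]
  have haB : (a : ℝ) * lg u (ρ * l) ≤ 2 * B / δ := by
    rw [le_div_iff₀ hδ]
    calc (a : ℝ) * lg u (ρ * l) * δ = (a * δ) * lg u (ρ * l) := by ring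
      _ ≤ 2 * lg u (ρ * l) := mul_le_mul_of_nonneg_right haδ hlg
      _ ≤ 2 * B := by linarith
  refine ⟨m0 + a * l, lat_add hm0 ?_, lg u y, ?_, ?_, ?_⟩
  · have := lat_mul (lat_int a) hl
    simpa using this
  · rw [hyl]
    have : 0 ≤ (a : ℝ) * lg u (ρ * l) := mul_nonneg (by positivity) hlg
    linarith [hy1.1]
  · rw [hyl]
    linarith [hy1.2]
  · have h3 : p + (lg u y : ℂ) * u - (ρ * (m0 + a * l) + x) = - (y - (lg u y : ℂ) * u) := by
      rw [hy, hy0]; ring
    rw [h3, decomp hu, norm_neg, norm_mul, norm_mul, norm_I, hu, norm_real, Real.norm_eq_abs]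
    linarith

lemma norm_rot (t : ℝ) : ‖exp (t * I)‖ = 1 := norm_exp_ofReal_mul_I t

lemma mem_TBG {k : ℕ} {x : Fin k → ℂ} {θ : Fin k → ℝ} {z : ℂ} :
    z ∈ TBG k x θ ↔ ∃ i, ∃ m ∈ lat, z = exp (θ i * I) * m + x i := by
  unfold TBG
  simp only [Set.mem_iUnion, Set.mem_image]
  constructor
  · rintro ⟨i, m, h1, h2⟩; exact ⟨i, m, h1, h2.symm⟩
  · rintro ⟨i, m, h1, h2⟩; exact ⟨i, m, h1, h2.symm⟩

/-- there are no nonzero vectors of the `k` lattices which are all parallel -/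
def NoCommonDirection {k : ℕ} (θ : Fin k → ℝ) : Prop :=
  ∀ l : Fin k → ℂ, (∀ i, l i ∈ lat ∧ l i ≠ 0) →
    ∃ i j, (exp (θ i * I) * l i * (starRingEnd ℂ) (exp (θ j * I) * l j)).im ≠ 0

theorem dense_of {k : ℕ} {θ : Fin k → ℝ} (h : NoCommonDirection θ) (x : Fin k → ℂ) :
    IsDenseForest (TBG k x θ) := by
  intro ε hε
  obtain ⟨B, hB, hD⟩ := dirichlet hε
  -- the finite set of tuples
  let T : Set (Fin k → ℂ) := {l | ∀ i, l i ∈ lat ∧ ‖l i‖ ≤ B ∧ l i ≠ 0}
  have hT : T.Finite := by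
    have h1 : (Set.univ.pi fun _ : Fin k => {z : ℂ | z ∈ lat ∧ ‖z‖ ≤ B}).Finite :=
      Set.Finite.pi fun _ => lat_finite B
    exact h1.subset fun l hl i _ => ⟨(hl i).1, (hl i).2.1⟩
  let f : (Fin k → ℂ) → ℝ := fun l =>
    ∑ i, ∑ j, |(exp (θ i * I) * l i * (starRingEnd ℂ) (exp (θ j * I) * l j)).im|
  have hf : ∀ l ∈ T, 0 < f l := by
    intro l hl
    obtain ⟨i, j, hij⟩ := h l fun i => ⟨(hl i).1, (hl i).2.2⟩
    refine lt_of_lt_of_le (abs_pos.2 hij) ?_
    refine le_trans ?_ (Finset.single_le_sum (f := fun i => ∑ j,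
      |(exp (θ i * I) * l i * (starRingEnd ℂ) (exp (θ j * I) * l j)).im|)
      (fun i _ => Finset.sum_nonneg fun j _ => abs_nonneg _) (Finset.mem_univ i))
    exact Finset.single_le_sum (f := fun j =>
      |(exp (θ i * I) * l i * (starRingEnd ℂ) (exp (θ j * I) * l j)).im|)
      (fun j _ => abs_nonneg _) (Finset.mem_univ j)
  obtain ⟨m, hm, hmT⟩ : ∃ m > 0, ∀ l ∈ T, m ≤ f l := by
    rcases T.eq_empty_or_nonempty with hE | hE
    · exact ⟨1, one_pos, fun l hl => by rw [hE] at hl; exact hl.elim⟩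
    · obtain ⟨l0, hl0, hmin⟩ := Set.exists_min_image T f hT hE
      exact ⟨f l0, hf l0 hl0, hmin⟩
  set δ : ℝ := m / (4 * B * (k ^ 2 + 1)) with hδ
  have hden : 0 < 4 * B * ((k : ℝ) ^ 2 + 1) := by positivity
  have hδ0 : 0 < δ := div_pos hm hden
  have hV0 : 0 < 2 + 2 * B / δ := by positivity
  refine ⟨2 + 2 * B / δ, hV0, fun p q hpq => ?_⟩
  set V : ℝ := 2 + 2 * B / δ with hV
  set u : ℂ := (q - p) / V with hu
  have hu1 : ‖u‖ = 1 := by
    rw [hu, norm_div, norm_real, Real.norm_eq_abs, abs_of_pos hV0, ← dist_eq_norm, dist_comm, hpq]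
    exact div_self hV0.ne'
  have hqp : q = p + V * u := by
    rw [hu]
    have : (V : ℂ) ≠ 0 := by exact_mod_cast hV0.ne'
    field_simp
    ring
  -- the Dirichlet vectors
  have hl : ∀ i : Fin k, ∃ l ∈ lat, l ≠ 0 ∧ ‖l‖ ≤ B ∧ |ht u (exp (θ i * I) * l)| < ε := by
    intro i
    have hn : ‖(starRingEnd ℂ) (exp (θ i * I)) * u‖ = 1 := by
      rw [norm_mul, RCLike.norm_conj, norm_rot, hu1, one_mul]
    obtain ⟨l, h1, h2, h3, h4⟩ := hD _ hn
    refine ⟨l, h1, h2, h3, ?_⟩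
    have : ht u (exp (θ i * I) * l) = ht ((starRingEnd ℂ) (exp (θ i * I)) * u) l := by
      unfold ht
      rw [map_mul, conj_conj]
      congr 1
      ring
    rw [this]; exact h4
  choose l hl1 hl2 hl3 hl4 using hl
  have hex : ∃ i, δ ≤ |ht u (exp (θ i * I) * l i)| := by
    by_contra hcon
    push Not at hcon
    have h1 := hmT l fun i => ⟨hl1 i, hl3 i, hl2 i⟩
    have huu : (starRingEnd ℂ) u * u = 1 := by
      rw [mul_comm, mul_conj, normSq_eq_norm_sq, hu1]; simp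
    have h2 : ∀ i j, |(exp (θ i * I) * l i * (starRingEnd ℂ) (exp (θ j * I) * l j)).im| ≤
        2 * B * δ := by
      intro i j
      have e1 : exp (θ i * I) * l i * (starRingEnd ℂ) (exp (θ j * I) * l j) =
          (exp (θ i * I) * l i * (starRingEnd ℂ) u) *
            (starRingEnd ℂ) (exp (θ j * I) * l j * (starRingEnd ℂ) u) := by
        rw [map_mul (starRingEnd ℂ) (exp (θ j * I) * l j), conj_conj]
        linear_combination (-(exp (θ i * I) * l i *
          (starRingEnd ℂ) (exp (θ j * I) * l j))) * huu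
      have e2 : (exp (θ i * I) * l i * (starRingEnd ℂ) (exp (θ j * I) * l j)).im =
          ht u (exp (θ i * I) * l i) * lg u (exp (θ j * I) * l j) -
            lg u (exp (θ i * I) * l i) * ht u (exp (θ j * I) * l j) := by
        rw [e1, mul_im, conj_re, conj_im]
        unfold ht lg
        ring
      have b1 : ∀ i, |lg u (exp (θ i * I) * l i)| ≤ B := fun i => by
        refine (lg_le hu1 _).trans ?_
        rw [norm_mul, norm_rot, one_mul]; exact hl3 i
      rw [e2]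
      refine (abs_sub _ _).trans ?_
      rw [abs_mul, abs_mul]
      have c1 : |ht u (exp (θ i * I) * l i)| * |lg u (exp (θ j * I) * l j)| ≤ δ * B :=
        mul_le_mul (hcon i).le (b1 j) (abs_nonneg _) hδ0.le
      have c2 : |lg u (exp (θ i * I) * l i)| * |ht u (exp (θ j * I) * l j)| ≤ B * δ :=
        mul_le_mul (b1 i) (hcon j).le (abs_nonneg _) hB.le
      linarith
    have h3 : f l ≤ k * (k * (2 * B * δ)) := by
      have : f l ≤ ∑ i : Fin k, ∑ j : Fin k, 2 * B * δ :=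
        Finset.sum_le_sum fun i _ => Finset.sum_le_sum fun j _ => h2 i j
      simpa using this
    have h4 : δ * (4 * B * (k ^ 2 + 1)) = m := by rw [hδ]; field_simp
    have h5 : (0 : ℝ) < B * δ := mul_pos hB hδ0
    nlinarith [mul_nonneg h5.le (sq_nonneg (k : ℝ))]
  obtain ⟨i, hi⟩ := hex
  obtain ⟨n, hn, τ, hτ0, hτV, hd⟩ := forest_one hu1 (norm_rot (θ i)) (hl1 i) hδ0 (hl3 i) hi
    (hl4 i) (le_refl _) p (x i)
  refine ⟨_, mem_TBG.2 ⟨i, n, hn, rfl⟩, p + τ * u, ?_, ?_⟩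
  · rw [segment_eq_image']
    refine ⟨τ / V, ⟨div_nonneg hτ0 hV0.le, (div_le_one hV0).2 hτV⟩, ?_⟩
    have hV' : (V : ℂ) ≠ 0 := by exact_mod_cast hV0.ne'
    simp only [real_smul, ofReal_div]
    rw [hqp]
    field_simp
    ring
  · rw [dist_eq_norm]; exact hd

/-! ### necessity -/

/-- a finite union of arithmetic progressions does not meet some interval -/
lemma gap {k : ℕ} (y c : Fin k → ℝ) (hc : ∀ i, c i ≠ 0) :
    ∃ g ε : ℝ, 0 < ε ∧ ∀ i, ∀ n : ℤ, ε ≤ |y i + n * c i - g| := by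
  let P : Fin k → Set ℝ := fun i => Set.range fun n : ℤ => y i + n * c i
  have hcl : ∀ i, IsClosed (P i) := by
    intro i
    have h1 : Topology.IsClosedEmbedding (fun n : ℤ => (n : ℝ)) := Int.isClosedEmbedding_coe_real
    have h2 : Topology.IsClosedEmbedding (fun t : ℝ => y i + t * c i) :=
      ((Homeomorph.mulRight₀ (c i) (hc i)).trans (Homeomorph.addLeft (y i))).isClosedEmbedding
    exact (h2.comp h1).isClosed_range
  have hcl' : IsClosed (⋃ i, P i) := isClosed_iUnion_of_finite hcl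
  have hct : (⋃ i, P i).Countable := Set.countable_iUnion fun i => Set.countable_range _
  obtain ⟨g, hg⟩ : ∃ g, g ∉ ⋃ i, P i := by
    by_contra hcon
    push Not at hcon
    have : (Set.univ : Set ℝ).Countable := hct.mono fun z _ => hcon z
    exact Set.not_countable_univ this
  obtain ⟨ε, hε, hball⟩ := Metric.isOpen_iff.1 hcl'.isOpen_compl g hg
  refine ⟨g, ε, hε, fun i n => ?_⟩
  by_contra hcon
  push Not at hcon
  have h1 : y i + n * c i ∈ Metric.ball g ε := by
    rw [Metric.mem_ball, Real.dist_eq]; exact hcon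
  exact hball h1 (Set.mem_iUnion.2 ⟨i, n, rfl⟩)

theorem not_dense_of {k : ℕ} {θ : Fin k → ℝ} (h : ¬ NoCommonDirection θ) (x : Fin k → ℂ) :
    ¬ IsDenseForest (TBG k x θ) := by
  intro hD
  unfold NoCommonDirection at h
  push Not at h
  obtain ⟨l, hl, hpar⟩ := h
  rcases Nat.eq_zero_or_pos k with hk | hk
  · subst hk
    obtain ⟨V, hV, h1⟩ := hD 1 one_pos
    obtain ⟨d, hd, -⟩ := h1 0 V (by simp [abs_of_pos hV])
    obtain ⟨i, -⟩ := mem_TBG.1 hd
    exact i.elim0
  -- the common direction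
  set e0 : ℂ := exp (θ ⟨0, hk⟩ * I) * l ⟨0, hk⟩ with he0
  have he0' : e0 ≠ 0 := mul_ne_zero (exp_ne_zero _) (hl _).2
  have hn0 : ‖e0‖ ≠ 0 := norm_ne_zero_iff.2 he0'
  set u : ℂ := e0 / ‖e0‖ with hu
  have hu1 : ‖u‖ = 1 := by
    rw [hu, norm_div, norm_real, norm_norm]; exact div_self hn0
  have hpu : ∀ i, ht u (exp (θ i * I) * l i) = 0 := by
    intro i
    have h1 := hpar i ⟨0, hk⟩
    rw [← he0] at h1
    unfold ht
    have : exp (θ i * I) * l i * (starRingEnd ℂ) u =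
        ((1 / ‖e0‖ : ℝ) : ℂ) * (exp (θ i * I) * l i * (starRingEnd ℂ) e0) := by
      rw [hu, map_div₀, conj_ofReal]
      push_cast
      ring
    rw [this, im_ofReal_mul, h1, mul_zero]
  have hr : ∀ i, exp (θ i * I) * l i = (lg u (exp (θ i * I) * l i) : ℂ) * u := by
    intro i
    have h1 := decomp hu1 (exp (θ i * I) * l i)
    rw [hpu i] at h1
    simp only [ofReal_zero, zero_mul] at h1
    exact sub_eq_zero.1 h1
  have hr0 : ∀ i, lg u (exp (θ i * I) * l i) ≠ 0 := by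
    intro i h0
    have h1 := hr i
    rw [h0] at h1
    simp only [ofReal_zero, zero_mul] at h1
    exact mul_ne_zero (exp_ne_zero _) (hl i).2 h1
  set r : Fin k → ℝ := fun i => lg u (exp (θ i * I) * l i) with hrdef
  have hheight : ∀ i, ∀ m ∈ lat, ∃ n : ℤ, ht u (exp (θ i * I) * m) = n * (√3 / 2 / r i) := by
    intro i m hm
    obtain ⟨n, hn⟩ := lat_im (lat_mul hm (lat_conj (hl i).1))
    refine ⟨n, ?_⟩
    have h1 : exp (θ i * I) * (starRingEnd ℂ) (exp (θ i * I)) = 1 := by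
      rw [mul_conj, normSq_eq_norm_sq, norm_rot]; simp
    have h2 : ((r i : ℝ) : ℂ) * (exp (θ i * I) * m * (starRingEnd ℂ) u) =
        m * (starRingEnd ℂ) (l i) := by
      have h3 : (starRingEnd ℂ) (exp (θ i * I) * l i) = (r i : ℂ) * (starRingEnd ℂ) u := by
        rw [hr i, map_mul, conj_ofReal]
      rw [map_mul] at h3
      linear_combination (-(exp (θ i * I) * m)) * h3 + m * (starRingEnd ℂ) (l i) * h1
    have h4 := congrArg Complex.im h2
    rw [im_ofReal_mul, hn] at h4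
    have hri : r i ≠ 0 := hr0 i
    show (exp (θ i * I) * m * (starRingEnd ℂ) u).im = _
    field_simp
    field_simp at h4
    linarith
  obtain ⟨g, ε, hε, hgap⟩ := gap (fun i => ht u (x i)) (fun i => √3 / 2 / r i)
    (fun i => div_ne_zero (by positivity) (hr0 i))
  obtain ⟨V, hV, h1⟩ := hD ε hε
  have huu : u * (starRingEnd ℂ) u = 1 := by
    rw [mul_conj, normSq_eq_norm_sq, hu1]; simp
  obtain ⟨d, hd, s, hs, hds⟩ := h1 (g * (I * u)) (g * (I * u) + V * u) (by
    rw [dist_comm, dist_eq_norm, add_sub_cancel_left, norm_mul, hu1, norm_real,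
      Real.norm_eq_abs, abs_of_pos hV, mul_one])
  have hhs : ht u s = g := by
    rw [segment_eq_image'] at hs
    obtain ⟨t, -, rfl⟩ := hs
    have : ((g : ℂ) * (I * u) + t • ((g : ℂ) * (I * u) + V * u - (g : ℂ) * (I * u))) *
        (starRingEnd ℂ) u = ((t * V : ℝ) : ℂ) + (g : ℝ) * I := by
      rw [real_smul]
      push_cast
      linear_combination ((g : ℂ) * I + t * V) * huu
    unfold ht
    rw [this]
    simp
  obtain ⟨i, m, hm, rfl⟩ := mem_TBG.1 hd
  obtain ⟨n, hn⟩ := hheight i m hm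
  have h2 := hgap i n
  have h3 : |ht u (s - (exp (θ i * I) * m + x i))| ≤ ‖s - (exp (θ i * I) * m + x i)‖ :=
    ht_le hu1 _
  rw [dist_eq_norm] at hds
  rw [ht_sub, ht_add, hhs, hn, abs_sub_comm] at h3
  have h4 : ht u (x i) + n * (√3 / 2 / r i) - g = n * (√3 / 2 / r i) + ht u (x i) - g := by ring
  rw [h4] at h2
  linarith

lemma two_works : NoCommonDirection ![(0 : ℝ), Real.pi / 4] := by
  intro l hl
  refine ⟨0, 1, ?_⟩
  obtain ⟨a, b, hab⟩ := lat_mul (hl 0).1 (lat_conj (hl 1).1)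
  have hne : l 0 * (starRingEnd ℂ) (l 1) ≠ 0 :=
    mul_ne_zero (hl 0).2 ((map_ne_zero _).2 (hl 1).2)
  have hval : exp (((![(0 : ℝ), Real.pi / 4] 0 : ℝ) : ℂ) * I) * l 0 *
      (starRingEnd ℂ) (exp (((![(0 : ℝ), Real.pi / 4] 1 : ℝ) : ℂ) * I) * l 1) =
      ((√2 / 2 : ℝ) : ℂ) * ((1 - I) * (a + b * zeta)) := by
    have h1 : exp ((Real.pi / 4 : ℝ) * I) = ((√2 / 2 : ℝ) : ℂ) * (1 + I) := by
      rw [exp_mul_I, ← ofReal_cos, ← ofReal_sin, Real.cos_pi_div_four, Real.sin_pi_div_four]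
      ring
    simp only [Matrix.cons_val_zero, Matrix.cons_val_one, ofReal_zero, zero_mul, exp_zero, one_mul]
    rw [h1, ← hab, map_mul, map_mul, conj_ofReal, map_add, map_one, conj_I]
    ring
  rw [hval, im_ofReal_mul]
  refine mul_ne_zero (by positivity) ?_
  have h2 : ((1 - I) * ((a : ℂ) + b * zeta)).im = b * (√3 / 2) - (a + b / 2) := by
    simp [zeta]
    ring
  rw [h2]
  intro h0
  have hirr : Irrational √3 := Nat.Prime.irrational_sqrt (by norm_num)
  have h3 : (b : ℝ) * √3 = 2 * a + b := by linarith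
  by_cases hb : b = 0
  · have ha : a = 0 := by
      rw [hb] at h3
      have : (a : ℝ) = 0 := by push_cast at h3; linarith
      exact_mod_cast this
    apply hne
    rw [hab, ha, hb]; simp
  · have hb' : (b : ℝ) ≠ 0 := by exact_mod_cast hb
    apply hirr
    refine ⟨(2 * a + b) / b, ?_⟩
    push_cast
    rw [← h3]
    field_simp

/-- **Theorem.** (1) The union of `k` translated copies of the triangular lattice, rotated by
`θ 1, …, θ k`, is a dense forest if and only if one cannot choose in every one of the `k` rotated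
lattices a nonzero vector such that these `k` vectors are parallel (`z`, `w` are parallel iff
`Im (z * conj w) = 0`).
(2) The smallest `k ≥ 1` for which such a union can be a dense forest is `2`. -/
theorem result :
    (∀ (k : ℕ) (x : Fin k → ℂ) (θ : Fin k → ℝ),
      IsDenseForest (TBG k x θ) ↔
        ¬ ∃ l : Fin k → ℂ, (∀ i, l i ∈ lat ∧ l i ≠ 0) ∧
          ∀ i j, (exp (θ i * I) * l i * (starRingEnd ℂ) (exp (θ j * I) * l j)).im = 0) ∧
    IsLeast {k : ℕ | 1 ≤ k ∧ ∃ (x : Fin k → ℂ) (θ : Fin k → ℝ), IsDenseForest (TBG k x θ)} 2 := by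
  have key : ∀ (k : ℕ) (θ : Fin k → ℝ), NoCommonDirection θ ↔
      ¬ ∃ l : Fin k → ℂ, (∀ i, l i ∈ lat ∧ l i ≠ 0) ∧
        ∀ i j, (exp (θ i * I) * l i * (starRingEnd ℂ) (exp (θ j * I) * l j)).im = 0 := by
    intro k θ
    unfold NoCommonDirection
    push Not
    rfl
  have h1 : ∀ (k : ℕ) (x : Fin k → ℂ) (θ : Fin k → ℝ),
      IsDenseForest (TBG k x θ) ↔ NoCommonDirection θ := fun k x θ =>
    ⟨fun h => by by_contra hc; exact not_dense_of hc x h, fun h => dense_of h x⟩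
  refine ⟨fun k x θ => (h1 k x θ).trans (key k θ), ⟨by norm_num, ![0, 0], _, dense_of two_works _⟩,
    ?_⟩
  rintro k ⟨hk, x, θ, h⟩
  by_contra hcon
  push Not at hcon
  obtain rfl : k = 1 := by omega
  obtain ⟨i, j, hij⟩ := (h1 1 x θ).1 h (fun _ => 1) fun _ => ⟨lat_one, one_ne_zero⟩
  obtain rfl : i = j := Subsingleton.elim _ _
  apply hij
  rw [mul_conj]
  simp

end Pool.Agent.Results.MP_b83ca4_nt.SmallestK
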