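import Mathlib
import Pool.Agent.Results.MP_b83ca4_nt.SmallestK

/-!
# A union of rotated triangular lattices is never a uniformly discrete dense forest

The triangular lattice is a ring which is stable under rotations by 60 degrees, so for two rotated
copies `L`, `L'` the closed subgroup generated by them is discrete or the whole plane. In the second
case no union of translates of them is uniformly discrete, in the first case they are commensurable
and all the directions rational for one of them are rational for the other one.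
-/

set_option autoImplicit false

open Complex

namespace Pool.Agent.Results.MP_b83ca4_nt.NeverUniformlyDiscrete

open Pool.Agent.Results.MP_b83ca4_nt.SmallestK

/-- `D` is uniformly discrete: there is `r > 0` such that any two different points of `D` have
distance at least `r`. -/
def IsUniformlyDiscrete (D : Set ℂ) : Prop :=
  ∃ r > (0 : ℝ), ∀ p ∈ D, ∀ q ∈ D, p ≠ q → r ≤ dist p q

/-- if `Λ` and `ρ Λ` are not commensurable then `Λ + ρ Λ` has arbitrarily small nonzero elements -/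
lemma small {ρ : ℂ} (h : ∀ m ∈ lat, m ≠ 0 → ρ * m ∉ lat) (n : ℕ) :
    ∃ a ∈ lat, ∃ b ∈ lat, a + ρ * b ≠ 0 ∧ normSq (a + ρ * b) ≤ (3 / 4) ^ n := by
  induction n with
  | zero => exact ⟨1, lat_one, 0, lat_zero, by simp, by simp⟩
  | succ n ih =>
    obtain ⟨a, ha, b, hb, hne, hle⟩ := ih
    set w := a + ρ * b with hw
    -- one of `1`, `ρ` is not a multiple of `w`
    have step : ∀ c ∈ lat, ∀ d ∈ lat, (∀ q ∈ lat, c + ρ * d ≠ q * w) →
        ∃ a ∈ lat, ∃ b ∈ lat, a + ρ * b ≠ 0 ∧ normSq (a + ρ * b) ≤ (3 / 4) ^ (n + 1) := by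
      intro c hc d hd hq
      obtain ⟨q, hq1, hq2⟩ := lat_round ((c + ρ * d) / w)
      have e : c - q * a + ρ * (d - q * b) = ((c + ρ * d) / w - q) * w := by
        rw [sub_mul, div_mul_cancel₀ _ hne, hw]; ring
      refine ⟨c - q * a, lat_sub hc (lat_mul hq1 ha), d - q * b, lat_sub hd (lat_mul hq1 hb),
        ?_, ?_⟩
      · intro h0
        apply hq q hq1
        have : c + ρ * d - q * w = c - q * a + ρ * (d - q * b) := by rw [hw]; ring
        rw [h0] at this
        exact sub_eq_zero.1 this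
      · rw [e, map_mul, pow_succ, mul_comm]
        exact mul_le_mul hle hq2 (normSq_nonneg _) (by positivity)
    by_cases h1 : ∀ q ∈ lat, (1 : ℂ) + ρ * 0 ≠ q * w
    · exact step 1 lat_one 0 lat_zero h1
    by_cases h2 : ∀ q ∈ lat, (0 : ℂ) + ρ * 1 ≠ q * w
    · exact step 0 lat_zero 1 lat_one h2
    push Not at h1 h2
    obtain ⟨q1, hq1, e1⟩ := h1
    obtain ⟨q2, hq2, e2⟩ := h2
    rw [mul_zero, add_zero] at e1
    rw [mul_one, zero_add] at e2
    exfalso
    have hq0 : q1 ≠ 0 := by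
      rintro rfl
      rw [zero_mul] at e1
      exact one_ne_zero e1
    apply h q1 hq1 hq0
    have : ρ * q1 = q2 := by
      calc ρ * q1 = (q2 * w) * q1 := by rw [← e2]
        _ = q2 * (q1 * w) := by ring
        _ = q2 := by rw [← e1, mul_one]
    rw [this]; exact hq2

lemma rot_conj (t : ℝ) : exp (t * I) * (starRingEnd ℂ) (exp (t * I)) = 1 := by
  rw [mul_conj, normSq_eq_norm_sq, norm_rot]; simp

/-- two lattices of a uniformly discrete union are commensurable -/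
lemma comm_of_ud {k : ℕ} {x : Fin k → ℂ} {θ : Fin k → ℝ} (h : IsUniformlyDiscrete (TBG k x θ))
    (i j : Fin k) : ∃ m ∈ lat, m ≠ 0 ∧ exp ((θ i - θ j : ℝ) * I) * m ∈ lat := by
  by_contra hcon
  push Not at hcon
  set ρ : ℂ := exp ((θ i - θ j : ℝ) * I) with hρ
  obtain ⟨r, hr, hD⟩ := h
  obtain ⟨n, hn⟩ := exists_pow_lt_of_lt_one (show 0 < (r / 3) ^ 2 by positivity)
    (show (3 / 4 : ℝ) < 1 by norm_num)
  obtain ⟨a, ha, b, hb, hne, hle⟩ := small hcon n
  set w := a + ρ * b with hw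
  have hwr : ‖w‖ < r / 3 := by
    have h1 : ‖w‖ ^ 2 < (r / 3) ^ 2 := by rw [← normSq_eq_norm_sq]; exact lt_of_le_of_lt hle hn
    exact lt_of_pow_lt_pow_left₀ 2 (by positivity) h1
  have hrot : exp (θ j * I) * ρ = exp (θ i * I) := by
    rw [hρ, ← exp_add]; congr 1; push_cast; ring
  -- for every `q` in the lattice there are points of `D` whose difference is `e w q + x i - x j`
  have hpts : ∀ q ∈ lat, exp (θ j * I) * (q * w) + (x i - x j) ≠ 0 →
      r ≤ ‖exp (θ j * I) * (q * w) + (x i - x j)‖ := by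
    intro q hq hne0
    have hp : exp (θ i * I) * (q * b) + x i ∈ TBG k x θ := mem_TBG.2 ⟨i, _, lat_mul hq hb, rfl⟩
    have hp' : exp (θ j * I) * (-(q * a)) + x j ∈ TBG k x θ :=
      mem_TBG.2 ⟨j, _, lat_neg (lat_mul hq ha), rfl⟩
    have e : exp (θ i * I) * (q * b) + x i - (exp (θ j * I) * (-(q * a)) + x j) =
        exp (θ j * I) * (q * w) + (x i - x j) := by
      rw [hw, ← hrot]; ring
    have h1 := hD _ hp _ hp' (fun h0 => hne0 (by rw [← e, h0, sub_self]))
    rwa [dist_eq_norm, e] at h1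
  have hej : exp (θ j * I) ≠ 0 := exp_ne_zero _
  obtain ⟨q, hq, hq'⟩ := lat_round' (-(x i - x j) / (exp (θ j * I) * w))
  have hew : exp (θ j * I) * w ≠ 0 := mul_ne_zero hej hne
  have hsmall : ‖exp (θ j * I) * (q * w) + (x i - x j)‖ ≤ ‖w‖ := by
    have e : exp (θ j * I) * (q * w) + (x i - x j) =
        -((exp (θ j * I) * w) * (-(x i - x j) / (exp (θ j * I) * w) - q)) := by
      rw [mul_sub, mul_div_cancel₀ _ hew]; ring
    rw [e, norm_neg, norm_mul, norm_mul, norm_rot, one_mul]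
    calc ‖w‖ * _ ≤ ‖w‖ * 1 := mul_le_mul_of_nonneg_left hq' (norm_nonneg _)
      _ = ‖w‖ := mul_one _
  by_cases h0 : exp (θ j * I) * (q * w) + (x i - x j) = 0
  · have h1 : exp (θ j * I) * ((q + 1) * w) + (x i - x j) = exp (θ j * I) * w := by
      have : exp (θ j * I) * ((q + 1) * w) + (x i - x j) =
        (exp (θ j * I) * (q * w) + (x i - x j)) + exp (θ j * I) * w := by ring
      rw [this, h0, zero_add]
    have h2 := hpts (q + 1) (lat_add hq lat_one) (by rw [h1]; exact hew)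
    rw [h1, norm_mul, norm_rot, one_mul] at h2
    linarith
  · have h2 := hpts q hq h0
    linarith

lemma dist_pos {c z : ℂ} (hc : c ≠ 0) :
    ∃ r > (0 : ℝ), ∀ l ∈ lat, c * l + z ≠ 0 → r ≤ ‖c * l + z‖ := by
  have hc' : 0 < ‖c‖ := norm_pos_iff.2 hc
  let T : Set ℂ := {l | (l ∈ lat ∧ ‖l‖ ≤ (1 + ‖z‖) / ‖c‖) ∧ c * l + z ≠ 0}
  have hT : T.Finite := (lat_finite _).subset fun l hl => hl.1
  obtain ⟨m, hm, hmT⟩ : ∃ m > (0 : ℝ), ∀ l ∈ T, m ≤ ‖c * l + z‖ := by
    rcases T.eq_empty_or_nonempty with hE | hE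
    · exact ⟨1, one_pos, fun l hl => by rw [hE] at hl; exact hl.elim⟩
    · obtain ⟨l0, hl0, hmin⟩ := Set.exists_min_image T (fun l => ‖c * l + z‖) hT hE
      exact ⟨_, norm_pos_iff.2 hl0.2, hmin⟩
  refine ⟨min m 1, lt_min hm one_pos, fun l hl hne => ?_⟩
  by_cases h1 : ‖c * l + z‖ ≤ 1
  · refine (min_le_left _ _).trans (hmT l ⟨⟨hl, ?_⟩, hne⟩)
    rw [le_div_iff₀ hc', mul_comm, ← norm_mul]
    calc ‖c * l‖ = ‖(c * l + z) - z‖ := by ring_nf
      _ ≤ ‖c * l + z‖ + ‖z‖ := norm_sub_le _ _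
      _ ≤ 1 + ‖z‖ := by linarith
  · push Not at h1
    exact (min_le_right _ _).trans h1.le

lemma ud_of_comm {k : ℕ} {x : Fin k → ℂ} {θ : Fin k → ℝ}
    (h : ∀ i j, ∃ m ∈ lat, m ≠ 0 ∧ exp ((θ i - θ j : ℝ) * I) * m ∈ lat) :
    IsUniformlyDiscrete (TBG k x θ) := by
  have key : ∀ i j : Fin k, ∃ r > (0 : ℝ), ∀ a ∈ lat, ∀ b ∈ lat,
      exp (θ i * I) * a + x i ≠ exp (θ j * I) * b + x j →
      r ≤ dist (exp (θ i * I) * a + x i) (exp (θ j * I) * b + x j) := by
    intro i j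
    obtain ⟨m, hm, hm0, hm'⟩ := h i j
    set m' := exp ((θ i - θ j : ℝ) * I) * m with hmd
    have hrot : exp (θ i * I) = exp (θ j * I) * (m' / m) := by
      rw [hmd, mul_div_assoc, div_self hm0, mul_one, ← exp_add]
      congr 1; push_cast; ring
    obtain ⟨r, hr, hd⟩ := dist_pos (c := exp (θ j * I) / m) (z := x i - x j)
      (div_ne_zero (exp_ne_zero _) hm0)
    refine ⟨r, hr, fun a ha b hb hne => ?_⟩
    have e : exp (θ i * I) * a + x i - (exp (θ j * I) * b + x j) =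
        exp (θ j * I) / m * (m' * a - m * b) + (x i - x j) := by
      rw [hrot]
      field_simp
      ring
    rw [dist_eq_norm, e]
    refine hd _ (lat_sub (lat_mul hm' ha) (lat_mul hm hb)) ?_
    rw [← e]
    exact sub_ne_zero.2 hne
  choose r hr hd using key
  rcases isEmpty_or_nonempty (Fin k) with hk | hk
  · refine ⟨1, one_pos, fun p hp => ?_⟩
    obtain ⟨i, -⟩ := mem_TBG.1 hp
    exact (hk.false i).elim
  · obtain ⟨⟨i0, j0⟩, hmin⟩ := Finite.exists_min (fun ij : Fin k × Fin k => r ij.1 ij.2)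
    refine ⟨r i0 j0, hr _ _, fun p hp q hq hne => ?_⟩
    obtain ⟨i, a, ha, rfl⟩ := mem_TBG.1 hp
    obtain ⟨j, b, hb, rfl⟩ := mem_TBG.1 hq
    exact (hmin (i, j)).trans (hd i j a ha b hb hne)

/-- **Theorem.** (1) The union of `k` translated copies of the triangular lattice, rotated by
`θ 1, …, θ k`, is uniformly discrete if and only if any two of the `k` rotated lattices are
commensurable. (2) It is never a uniformly discrete dense forest. -/
theorem result :
    (∀ (k : ℕ) (x : Fin k → ℂ) (θ : Fin k → ℝ),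
      IsUniformlyDiscrete (TBG k x θ) ↔
        ∀ i j, ∃ m ∈ lat, m ≠ 0 ∧ exp ((θ i - θ j : ℝ) * I) * m ∈ lat) ∧
    ∀ (k : ℕ) (x : Fin k → ℂ) (θ : Fin k → ℝ),
      ¬ (IsUniformlyDiscrete (TBG k x θ) ∧ IsDenseForest (TBG k x θ)) := by
  refine ⟨fun k x θ => ⟨fun h i j => comm_of_ud h i j, ud_of_comm⟩, fun k x θ ⟨hU, hD⟩ => ?_⟩
  rcases Nat.eq_zero_or_pos k with hk | hk
  · subst hk
    obtain ⟨V, hV, h1⟩ := hD 1 one_pos
    obtain ⟨d, hd, -⟩ := h1 0 V (by simp [abs_of_pos hV])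
    obtain ⟨i, -⟩ := mem_TBG.1 hd
    exact i.elim0
  -- nonzero vectors of all the lattices in the direction of `exp (θ 0 i)`
  have key : ∀ i : Fin k, ∃ l ∈ lat, l ≠ 0 ∧ ∃ t : ℝ,
      exp (θ i * I) * l = (t : ℂ) * exp (θ ⟨0, hk⟩ * I) := by
    intro i
    obtain ⟨m, hm, hm0, hm'⟩ := comm_of_ud hU ⟨0, hk⟩ i
    set m' := exp ((θ ⟨0, hk⟩ - θ i : ℝ) * I) * m with hmd
    have hm'0 : m' ≠ 0 := mul_ne_zero (exp_ne_zero _) hm0
    refine ⟨m' * (starRingEnd ℂ) m, lat_mul hm' (lat_conj hm),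
      mul_ne_zero hm'0 ((map_ne_zero _).2 hm0), normSq m, ?_⟩
    have e : exp (θ i * I) * exp ((θ ⟨0, hk⟩ - θ i : ℝ) * I) = exp (θ ⟨0, hk⟩ * I) := by
      rw [← exp_add]; congr 1; push_cast; ring
    rw [hmd, ← mul_conj, ← e]
    ring
  choose l hl hl0 t ht using key
  refine (((SmallestK.result.1 k x θ).1 hD) ⟨l, fun i => ⟨hl i, hl0 i⟩, fun i j => ?_⟩)
  rw [ht i, ht j, map_mul, conj_ofReal]
  have e : (t i : ℂ) * exp (θ ⟨0, hk⟩ * I) * ((t j : ℂ) * (starRingEnd ℂ) (exp (θ ⟨0, hk⟩ * I))) =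
      ((t i * t j : ℝ) : ℂ) := by
    push_cast
    linear_combination (t i : ℂ) * t j * rot_conj (θ ⟨0, hk⟩)
  rw [e, ofReal_im]

end Pool.Agent.Results.MP_b83ca4_nt.NeverUniformlyDiscrete
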